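import Pool.Agent.Q117.YT.Formula

/-! The inequality `Y ≤ 9 S + P + 8` for trees. -/

set_option linter.unusedSectionVars false

namespace Pool.Agent.P8H50.YT

open SimpleGraph Finset Pool.Agent.Q117.YT

variable {V : Type} [Fintype V] [DecidableEq V] (G : SimpleGraph V) [DecidableRel G.Adj]

/-- indicator of the vertices which are not leaves -/
def nl (v : V) : ℤ := if 2 ≤ G.degree v then 1 else 0

/-- number of neighbours which are not leaves -/
def jj (v : V) : ℤ := ∑ u ∈ G.neighborFinset v, nl G u

/-- sum of `deg - 1` over the neighbours -/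
def ss (v : V) : ℤ := ∑ u ∈ G.neighborFinset v, av G u

theorem swap (f : V → V → ℤ) : ∑ v, ∑ u ∈ G.neighborFinset v, f v u
    = ∑ v, ∑ u ∈ G.neighborFinset v, f u v := by
  have h : ∀ g : V → V → ℤ, ∑ v, ∑ u ∈ G.neighborFinset v, g v u
      = ∑ v, ∑ u, if G.Adj v u then g v u else 0 := by
    intro g
    apply Finset.sum_congr rfl
    intro v _
    rw [← Finset.sum_filter]
    apply Finset.sum_congr
    · ext u; simp
    · intros; rfl
  rw [h, h, Finset.sum_comm]
  apply Finset.sum_congr rfl
  intro v _
  apply Finset.sum_congr rfl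
  intro u _
  simp only [G.adj_comm u v]

theorem nl_cases (v : V) : nl G v = 0 ∨ nl G v = 1 := by
  unfold nl; split_ifs <;> simp

theorem nl_nonneg (v : V) : 0 ≤ nl G v := by
  rcases nl_cases G v with h | h <;> rw [h] <;> norm_num

theorem jj_nonneg (v : V) : 0 ≤ jj G v := Finset.sum_nonneg fun u _ => nl_nonneg G u

theorem jj_le (v : V) : jj G v ≤ av G v + 1 := by
  unfold jj av
  have h : ∑ u ∈ G.neighborFinset v, nl G u ≤ ∑ u ∈ G.neighborFinset v, (1 : ℤ) := by
    apply Finset.sum_le_sum
    intro u _
    rcases nl_cases G u with h | h <;> rw [h] <;> norm_num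
  rw [Finset.sum_const, card_neighborFinset_eq_degree] at h
  simp only [nsmul_eq_mul, mul_one] at h
  linarith

/-- the situation of a tree with a vertex which is not a leaf -/
structure Good : Prop where
  pos : ∀ v, 1 ≤ G.degree v
  leaf : ∀ v u, G.Adj v u → G.degree v = 1 → 2 ≤ G.degree u
  edges : ∑ v, (G.degree v : ℤ) = 2 * (Fintype.card V : ℤ) - 2

variable {G}

theorem Good.av_nonneg (h : Good G) (v : V) : 0 ≤ av G v := by
  have := h.pos v
  unfold av; omega

theorem Good.av_nl (h : Good G) (v : V) : av G v = nl G v * av G v := by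
  have := h.pos v
  unfold nl
  split_ifs with h1
  · ring
  · have : G.degree v = 1 := by omega
    unfold av; rw [this]; simp

theorem Good.nl_av (h : Good G) (v : V) (hv : nl G v = 1) : 1 ≤ av G v := by
  unfold nl at hv
  split_ifs at hv with h1
  · unfold av; omega
  · omega

theorem Good.nl_zero (h : Good G) (v : V) (hv : nl G v = 0) : G.degree v = 1 := by
  have h2 := h.pos v
  unfold nl at hv
  split_ifs at hv with h1
  · omega
  · omega

/-- at a leaf the square of the sum is the sum of the squares -/
theorem Good.leaf_sq (h : Good G) (v : V) (hv : nl G v = 0) :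
    (∑ u ∈ G.neighborFinset v, av G u) ^ 2 - ∑ u ∈ G.neighborFinset v, av G u ^ 2 = 0 := by
  have h1 := h.nl_zero v hv
  rw [← card_neighborFinset_eq_degree, Finset.card_eq_one] at h1
  obtain ⟨u, hu⟩ := h1
  rw [hu]; simp

theorem Good.sum_nl (h : Good G) : ∑ v, nl G v * (jj G v - 2) = -2 := by
  -- nl = 1 - leaf
  have h1 : ∑ v, nl G v * jj G v
      = ∑ v, ∑ u ∈ G.neighborFinset v, (1 - (1 - nl G v) - (1 - nl G u)) := by
    apply Finset.sum_congr rfl
    intro v _
    unfold jj
    rw [Finset.mul_sum]
    apply Finset.sum_congr rfl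
    intro u hu
    rw [mem_neighborFinset] at hu
    rcases nl_cases G v with h2 | h2
    · have h3 := h.leaf v u hu (h.nl_zero v h2)
      have h4 : nl G u = 1 := by unfold nl; rw [if_pos h3]
      rw [h2, h4]; ring
    · rw [h2]; ring
  have h2 : ∑ v, ∑ u ∈ G.neighborFinset v, (1 - nl G u)
      = ∑ v, ∑ u ∈ G.neighborFinset v, (1 - nl G v) := swap G (fun _ u => 1 - nl G u)
  have h3 : ∀ v, ∑ u ∈ G.neighborFinset v, (1 - nl G v) = 1 - nl G v := by
    intro v
    rw [Finset.sum_const, card_neighborFinset_eq_degree]
    rcases nl_cases G v with h4 | h4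
    · rw [h.nl_zero v h4]; simp
    · rw [h4]; simp
  have h4 : ∑ v, ∑ u ∈ G.neighborFinset v, (1 : ℤ) = 2 * (Fintype.card V : ℤ) - 2 := by
    rw [← h.edges]
    apply Finset.sum_congr rfl
    intro v _
    rw [Finset.sum_const, card_neighborFinset_eq_degree]; simp
  have h5 : ∑ v : V, (1 : ℤ) = (Fintype.card V : ℤ) := by simp
  have h6 : ∑ v, nl G v * (jj G v - 2) = ∑ v, nl G v * jj G v - 2 * ∑ v, nl G v := by
    rw [Finset.mul_sum, ← Finset.sum_sub_distrib]
    apply Finset.sum_congr rfl
    intro v _
    ring
  have h7 : ∑ v, ∑ u ∈ G.neighborFinset v, (1 - nl G v) = ∑ v : V, (1 - nl G v) :=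
    Finset.sum_congr rfl fun v _ => h3 v
  have h8 : ∑ v : V, (1 - nl G v) = (Fintype.card V : ℤ) - ∑ v : V, nl G v := by
    rw [Finset.sum_sub_distrib, h5]
  have h9 : ∑ v, ∑ u ∈ G.neighborFinset v, (1 - (1 - nl G v) - (1 - nl G u))
      = ∑ v, ∑ u ∈ G.neighborFinset v, (1 : ℤ) - ∑ v, ∑ u ∈ G.neighborFinset v, (1 - nl G v)
        - ∑ v, ∑ u ∈ G.neighborFinset v, (1 - nl G u) := by
    rw [← Finset.sum_sub_distrib, ← Finset.sum_sub_distrib]
    apply Finset.sum_congr rfl
    intro v _
    rw [← Finset.sum_sub_distrib, ← Finset.sum_sub_distrib]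
  rw [h6, h1, h9, h2, h7, h8, h4]
  ring

/-- the local weight -/
def gg (G : SimpleGraph V) [DecidableRel G.Adj] (v : V) : ℤ :=
  (2 * ss G v - av G v * (av G v - 1) - 6) ^ 2
    + 2 * (av G v * (av G v - 1) - 2) * (av G v * (av G v - 1) - 7)
    - 4 * (av G v - 2) * (av G v - 4) * jj G v

theorem Good.identity (h : Good G) (hG : G.IsAcyclic) :
    8 * (9 * (cS G : ℤ) + cP G - cY G) + 64 = ∑ v, nl G v * gg G v := by
  have hS := formula_S G
  have hY := formula_Y G hG
  have hP := formula_P G hG
  have e1 : ∑ v, nl G v * ∑ u ∈ G.neighborFinset v, av G u ^ 2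
      = ∑ v, nl G v * (av G v ^ 2 * jj G v) := by
    have h1 := swap G (fun v u => nl G v * av G u ^ 2)
    simp only [← Finset.mul_sum] at h1
    rw [h1]
    apply Finset.sum_congr rfl
    intro v _
    unfold jj
    rw [← Finset.sum_mul]
    have := h.av_nl v
    calc (∑ u ∈ G.neighborFinset v, nl G u) * av G v ^ 2
        = (∑ u ∈ G.neighborFinset v, nl G u) * (av G v * av G v) := by ring
      _ = (∑ u ∈ G.neighborFinset v, nl G u) * ((nl G v * av G v) * av G v) := by rw [← this]
      _ = _ := by ring
  have e2 : ∑ v, nl G v * ss G v = ∑ v, nl G v * (av G v * jj G v) := by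
    have h1 := swap G (fun v u => nl G v * av G u)
    simp only [← Finset.mul_sum] at h1
    unfold ss
    rw [h1]
    apply Finset.sum_congr rfl
    intro v _
    unfold jj
    rw [← Finset.sum_mul]
    have := h.av_nl v
    calc (∑ u ∈ G.neighborFinset v, nl G u) * av G v
        = (∑ u ∈ G.neighborFinset v, nl G u) * (nl G v * av G v) := by rw [← this]
      _ = _ := by ring
  have e3 := h.sum_nl
  -- the sum over the leaves vanishes
  have e4 : 8 * (9 * (cS G : ℤ) + cP G - cY G) = ∑ v, nl G v *
      (3 * ((av G v + 1) * av G v * (av G v - 1) * (av G v - 2)) + 4 * (ss G v ^ 2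
        - ∑ u ∈ G.neighborFinset v, av G u ^ 2) - 4 * (ss G v * (av G v * (av G v - 1)))) := by
    have h1 : 8 * (9 * (cS G : ℤ) + cP G - cY G) = 3 * (24 * (cS G : ℤ)) + 4 * (2 * (cP G : ℤ))
        - 4 * (2 * (cY G : ℤ)) := by ring
    rw [h1, hS, hP, hY, Finset.mul_sum, Finset.mul_sum, Finset.mul_sum, ← Finset.sum_add_distrib,
      ← Finset.sum_sub_distrib]
    apply Finset.sum_congr rfl
    intro v _
    rw [← Finset.sum_mul]
    rcases nl_cases G v with h2 | h2
    · have h3 := h.leaf_sq v h2
      have h4 : av G v = 0 := by rw [h.av_nl v, h2]; ring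
      rw [h3, h2, h4]; ring
    · rw [h2]; unfold ss; ring
  have e5 : ∑ v, nl G v * gg G v = (∑ v, nl G v *
      (3 * ((av G v + 1) * av G v * (av G v - 1) * (av G v - 2)) + 4 * (ss G v ^ 2
        - ∑ u ∈ G.neighborFinset v, av G u ^ 2) - 4 * (ss G v * (av G v * (av G v - 1)))))
      + 4 * (∑ v, nl G v * ∑ u ∈ G.neighborFinset v, av G u ^ 2)
      - 4 * (∑ v, nl G v * (av G v ^ 2 * jj G v))
      - 24 * (∑ v, nl G v * ss G v) + 24 * (∑ v, nl G v * (av G v * jj G v))
      - 32 * (∑ v, nl G v * (jj G v - 2)) := by
    simp only [Finset.mul_sum]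
    rw [← Finset.sum_add_distrib, ← Finset.sum_sub_distrib, ← Finset.sum_sub_distrib,
      ← Finset.sum_add_distrib, ← Finset.sum_sub_distrib]
    apply Finset.sum_congr rfl
    intro v _
    simp only [← Finset.mul_sum]
    unfold gg
    ring
  rw [e5, e1, e2, e3, ← e4]
  ring

/-- transfer from the vertices of degree seven to the vertices of degree four -/
def tr (G : SimpleGraph V) [DecidableRel G.Adj] (v u : V) : ℤ :=
  if av G v = 3 ∧ av G u = 6 then 4 else 0

theorem tr_nonneg (v u : V) : 0 ≤ tr G v u := by unfold tr; split_ifs <;> norm_num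

theorem Good.jj_av (h : Good G) (v : V) : jj G v ≤ ss G v := by
  unfold jj ss
  apply Finset.sum_le_sum
  intro u _
  rcases nl_cases G u with h1 | h1
  · rw [h1]; exact h.av_nonneg u
  · rw [h1]; exact h.nl_av u h1

theorem Good.local_nonneg (h : Good G) (v : V) (hv : nl G v = 1) :
    0 ≤ gg G v + (∑ u ∈ G.neighborFinset v, tr G v u) - ∑ u ∈ G.neighborFinset v, tr G u v := by
  have ha := h.nl_av v hv
  have hj := jj_nonneg G v
  have hj2 := jj_le G v
  have hs := h.jj_av v
  have h1 : 0 ≤ ∑ u ∈ G.neighborFinset v, tr G v u :=
    Finset.sum_nonneg fun u _ => tr_nonneg v u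
  by_cases h6 : av G v = 6
  · -- degree seven
    have h2 : ∑ u ∈ G.neighborFinset v, tr G u v ≤ 4 * jj G v := by
      unfold jj
      rw [Finset.mul_sum]
      apply Finset.sum_le_sum
      intro u _
      unfold tr
      split_ifs with h3
      · have : nl G u = 1 := by
          rcases nl_cases G u with h4 | h4
          · have := h.av_nl u
            rw [h4, h3.1] at this; omega
          · exact h4
        rw [this]; norm_num
      · have := nl_nonneg G u
        linarith
    unfold gg
    rw [h6] at *
    nlinarith [sq_nonneg (2 * ss G v - 6 * (6 - 1) - 6)]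
  · have h2 : ∑ u ∈ G.neighborFinset v, tr G u v = 0 := by
      apply Finset.sum_eq_zero
      intro u _
      unfold tr
      rw [if_neg]
      rintro ⟨-, h3⟩
      exact h6 h3
    rw [h2, sub_zero]
    by_cases h3 : av G v = 3
    · -- degree four
      by_cases hj3 : 2 ≤ jj G v
      · unfold gg
        rw [h3]
        nlinarith [sq_nonneg (2 * ss G v - 3 * (3 - 1) - 6)]
      · by_cases hs6 : ss G v = 6
        · -- the only neighbour that is not a leaf has degree seven
          have hj1 : jj G v = 1 := by
            rcases lt_or_ge (jj G v) 1 with h4 | h4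
            · exfalso
              have h5 : jj G v = 0 := by omega
              have h7 : ∀ u ∈ G.neighborFinset v, nl G u = 0 := by
                unfold jj at h5
                exact (Finset.sum_eq_zero_iff_of_nonneg fun u _ => nl_nonneg G u).1 h5
              have h8 : ss G v = 0 := by
                unfold ss
                apply Finset.sum_eq_zero
                intro u hu
                rw [h.av_nl u, h7 u hu]; ring
              omega
            · omega
          -- find the neighbour
          have h4 : ∃ u ∈ G.neighborFinset v, nl G u = 1 := by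
            by_contra hcon
            push Not at hcon
            have : jj G v = 0 := by
              unfold jj
              apply Finset.sum_eq_zero
              intro u hu
              rcases nl_cases G u with h5 | h5
              · exact h5
              · exact absurd h5 (hcon u hu)
            omega
          obtain ⟨u, hu, hu1⟩ := h4
          have h5 : ∀ w ∈ (G.neighborFinset v).erase u, nl G w = 0 := by
            have h7 : ∑ w ∈ (G.neighborFinset v).erase u, nl G w = 0 := by
              have := Finset.add_sum_erase (G.neighborFinset v) (nl G) hu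
              rw [hu1] at this
              unfold jj at hj1
              omega
            exact (Finset.sum_eq_zero_iff_of_nonneg fun u _ => nl_nonneg G u).1 h7
          have h8 : av G u = 6 := by
            have h9 := Finset.add_sum_erase (G.neighborFinset v) (av G) hu
            have h10 : ∑ w ∈ (G.neighborFinset v).erase u, av G w = 0 := by
              apply Finset.sum_eq_zero
              intro w hw
              rw [h.av_nl w, h5 w hw]; ring
            unfold ss at hs6
            omega
          have h11 : (4 : ℤ) ≤ ∑ u ∈ G.neighborFinset v, tr G v u := by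
            have h12 : tr G v u = 4 := by unfold tr; rw [if_pos ⟨h3, h8⟩]
            rw [← h12]
            exact Finset.single_le_sum (f := fun u => tr G v u) (fun w _ => tr_nonneg v w) hu
          unfold gg
          rw [h3, hs6, hj1]
          linarith
        · have h4 : 1 ≤ (ss G v - 6) ^ 2 := by
            rcases lt_or_gt_of_ne hs6 with h5 | h5
            · nlinarith
            · nlinarith
          by_cases hj1 : 1 ≤ jj G v
          · unfold gg
            rw [h3]
            nlinarith
          · have hj0 : jj G v = 0 := by omega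
            have h7 : ∀ u ∈ G.neighborFinset v, nl G u = 0 := by
              unfold jj at hj0
              exact (Finset.sum_eq_zero_iff_of_nonneg fun u _ => nl_nonneg G u).1 hj0
            have h8 : ss G v = 0 := by
              unfold ss
              apply Finset.sum_eq_zero
              intro u hu
              rw [h.av_nl u, h7 u hu]; ring
            unfold gg
            rw [h3, h8, hj0]
            linarith
    · -- the other degrees
      have h5 : 0 ≤ gg G v := by
        unfold gg
        have h7 := sq_nonneg (2 * ss G v - av G v * (av G v - 1) - 6)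
        rcases lt_or_ge (av G v) 4 with h4 | h4
        · have h8 : av G v = 1 ∨ av G v = 2 := by omega
          rcases h8 with h8 | h8
          · rw [h8] at h7 hj2 ⊢
            nlinarith
          · rw [h8] at h7 hj2 ⊢
            nlinarith
        · have h8 : (av G v - 2) * (av G v - 4) * jj G v
              ≤ (av G v - 2) * (av G v - 4) * (av G v + 1) := by
            apply mul_le_mul_of_nonneg_left hj2
            apply mul_nonneg <;> linarith
          have h9 : 0 ≤ (av G v - 2) * (av G v + 1) * (av G v ^ 2 - 3 * av G v + 1) := by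
            apply mul_nonneg
            · apply mul_nonneg <;> linarith
            · nlinarith
          nlinarith
      linarith

theorem Good.main (h : Good G) (hG : G.IsAcyclic) :
    (cY G : ℤ) ≤ 9 * cS G + cP G + 8 := by
  have h1 := h.identity hG
  have h2 : 0 ≤ ∑ v, nl G v * gg G v := by
    have h3 : ∑ v, nl G v * gg G v = ∑ v, (nl G v * gg G v
        + ((∑ u ∈ G.neighborFinset v, tr G v u) - ∑ u ∈ G.neighborFinset v, tr G u v)) := by
      rw [Finset.sum_add_distrib, Finset.sum_sub_distrib, swap G (fun v u => tr G v u)]
      ring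
    rw [h3]
    apply Finset.sum_nonneg
    intro v _
    rcases nl_cases G v with h4 | h4
    · have h5 : av G v = 0 := by rw [h.av_nl v, h4]; ring
      have h6 : ∑ u ∈ G.neighborFinset v, tr G v u = 0 := by
        apply Finset.sum_eq_zero
        intro u _
        unfold tr
        rw [if_neg]
        rintro ⟨h7, -⟩
        omega
      have h8 : ∑ u ∈ G.neighborFinset v, tr G u v = 0 := by
        apply Finset.sum_eq_zero
        intro u _
        unfold tr
        rw [if_neg]
        rintro ⟨-, h7⟩
        omega
      rw [h4, h6, h8]; simp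
    · have := h.local_nonneg v h4
      rw [h4]
      linarith
  linarith

/-- a graph all of whose degrees are at most one has no Y-shaped tree -/
theorem cY_zero (hG : G.IsAcyclic) (h : ∀ v, G.degree v ≤ 1) : (cY G : ℤ) = 0 := by
  have hY := formula_Y G hG
  have h1 : ∑ v, ∑ u ∈ G.neighborFinset v, av G u * (av G v * (av G v - 1)) = 0 := by
    apply Finset.sum_eq_zero
    intro v _
    apply Finset.sum_eq_zero
    intro u hu
    rw [mem_neighborFinset] at hu
    have h2 : 1 ≤ G.degree v := by
      rw [Nat.one_le_iff_ne_zero, ← Nat.pos_iff_ne_zero, degree_pos_iff_exists_adj]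
      exact ⟨u, hu⟩
    have h3 := h v
    have h4 : av G v = 0 := by unfold av; omega
    rw [h4]; ring
  linarith

theorem good_of_tree (hG : G.IsTree) {w : V} (hw : 2 ≤ G.degree w) : Good G := by
  have hc := hG.connected
  have hnt : Nontrivial V := by
    have : 0 < G.degree w := by omega
    rw [degree_pos_iff_exists_adj] at this
    obtain ⟨u, hu⟩ := this
    exact ⟨w, u, hu.ne⟩
  have hpos : ∀ v, 1 ≤ G.degree v := by
    intro v
    exact hc.preconnected.minDegree_pos_of_nontrivial.trans_le (G.minDegree_le_degree v)
  refine ⟨hpos, ?_, ?_⟩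
  · intro v u hvu hv
    by_contra hu
    have hu1 : G.degree u = 1 := by
      have := hpos u
      omega
    -- `{v, u}` is closed
    have hcl : ∀ x y, (x = v ∨ x = u) → G.Adj x y → (y = v ∨ y = u) := by
      intro x y hx hxy
      rcases hx with rfl | rfl
      · right
        rw [← card_neighborFinset_eq_degree, Finset.card_eq_one] at hv
        obtain ⟨z, hz⟩ := hv
        have h1 : u ∈ G.neighborFinset x := by simpa using hvu
        have h2 : y ∈ G.neighborFinset x := by simpa using hxy
        rw [hz, Finset.mem_singleton] at h1 h2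
        rw [h1, h2]
      · left
        rw [← card_neighborFinset_eq_degree, Finset.card_eq_one] at hu1
        obtain ⟨z, hz⟩ := hu1
        have h1 : v ∈ G.neighborFinset x := by simpa using hvu.symm
        have h2 : y ∈ G.neighborFinset x := by simpa using hxy
        rw [hz, Finset.mem_singleton] at h1 h2
        rw [h1, h2]
    have hwalk : ∀ {x y : V} (p : G.Walk x y), (x = v ∨ x = u) → (y = v ∨ y = u) := by
      intro x y p
      induction p with
      | nil => exact fun h => h
      | cons hxy _ ih => exact fun h => ih (hcl _ _ h hxy)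
    obtain ⟨p⟩ := hc.preconnected v w
    rcases hwalk p (Or.inl rfl) with h | h
    · rw [h] at hw; omega
    · rw [h] at hw; omega
  · have h1 := G.sum_degrees_eq_twice_card_edges
    have h2 := hG.card_edgeFinset
    have h3 : 1 ≤ Fintype.card V := Fintype.card_pos_iff.2 ⟨w⟩
    have h4 : ((∑ v, G.degree v : ℕ) : ℤ) = ((2 * G.edgeFinset.card : ℕ) : ℤ) := by rw [h1]
    push_cast at h4
    rw [h4]
    have h5 : (G.edgeFinset.card : ℤ) + 1 = Fintype.card V := by exact_mod_cast h2
    linarith

theorem tree_main (hG : G.IsTree) : cY G ≤ 9 * cS G + cP G + 8 := by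
  by_cases h : ∃ w, 2 ≤ G.degree w
  · obtain ⟨w, hw⟩ := h
    have := (good_of_tree hG hw).main hG.isAcyclic
    exact_mod_cast this
  · push Not at h
    have h1 := cY_zero hG.isAcyclic (fun v => by have := h v; omega)
    have : cY G = 0 := by exact_mod_cast h1
    omega

end Pool.Agent.P8H50.YT
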